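import Pool.Agent.Run7.h652.LP.Exp

/-!
Zero-cycles of degree one over global function fields, without local hypotheses.

Let `f_j` be weighted homogeneous polynomials of degrees `d_j` in variables of weights `w_i` over a
global function field `K`, and `V` the variety `f_j(x_1^{a_1}, …, x_n^{a_n}) = 0`. Let `(m)_ℓ` be the
highest power of `ℓ` dividing `m`. Then no prime number `ℓ` with
`∑ d_j (d_j)_ℓ < ∑ w_i (w_i)_ℓ / (a_i)_ℓ ^ 2` divides the index of `V`. If this holds for all the prime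
numbers `ℓ`, there is a zero-cycle of degree one on `V`. The variety `V` can be of general type.
-/

set_option autoImplicit false

theorem Pool.Agent.Results.MP_1ad228_nt.DegreeOneFunctionFields.result
    {F K : Type} [Field F] [Finite F] [Field K]
    [Algebra (RatFunc F) K] [Algebra.IsAlgebraic (RatFunc F) K]
    {ι κ : Type} [Fintype ι] [Fintype κ] (w : ι → ℕ) (d : κ → ℕ) (a : ι → ℕ)
    (hw : ∀ i, 0 < w i) (hd : ∀ j, 0 < d j) (ha : ∀ i, 0 < a i)
    (f : κ → MvPolynomial ι K)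
    (hf : ∀ j, MvPolynomial.IsWeightedHomogeneous w (f j) (d j)) :
    ∃ (z : IntermediateField K (AlgebraicClosure K) →₀ ℤ) (N : ℕ),
      (∀ L ∈ z.support, FiniteDimensional K L ∧
        ∃ x : ι → L, x ≠ 0 ∧ ∀ j, MvPolynomial.aeval (fun i => x i ^ a i) (f j) = 0) ∧
      z.sum (fun L m => m * (Module.finrank K L : ℤ)) = N ∧
      ∀ ℓ : ℕ, ℓ.Prime →
        ∑ j, (d j : ℚ) * ℓ ^ (d j).factorization ℓ
          < ∑ i, (w i : ℚ) * ℓ ^ (w i).factorization ℓ / (ℓ ^ (a i).factorization ℓ) ^ 2 →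
        ¬ ℓ ∣ N := by
  obtain ⟨z, N, h1, h2, h3⟩ := Pool.Agent.Run7.h652.LP.index_cycle (K := K)
    (Ω := AlgebraicClosure K)
    (fun L => ∃ x : ι → L, x ≠ 0 ∧ ∀ j, MvPolynomial.aeval (fun i => x i ^ a i) (f j) = 0)
  exact ⟨z, N, h1, h2, fun ℓ hℓ hlt => h3 ℓ
    (Pool.Agent.Run7.h652.LP.glob_exp (F := F) hℓ w d a f hw hd ha hf hlt)⟩
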