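import Pool.Agent.Run7.h846.MainO
import Pool.Agent.Run7.h846.MainZ
import Pool.Agent.Run7.h846.SecObs
import Pool.Agent.Run7.h846.DesM

/-!
# Zero-cycles on the members of a family of superelliptic curves and the Brauer-Manin obstruction

Let `K` be a number field, `R` a finitely generated `K`-algebra which is a domain, with fraction field
`F`, and `s` the coordinate of the affine line over `Spec R`. Let `q` be a prime number, `h ∈ R[s]`
nonzero and `f ∈ R[s][x]` monic in `x` of degree `n ≥ 3` divisible by `q` (by `4` if `q = 2`); we
consider the family of curves `X_b : h(b) y^q = f(b, x)`, where `b` is a point of the affine line over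
`Spec R` with values in a number field `L` containing `K`. We suppose that `f` is a product of factors
`x - θ_i(s)` with `θ_i ∈ F̄[s]` (they may be permuted by the Galois group of `F`), and that for some
`c ∈ R` the order of `h` at `s = c` is prime to `q` and `f(c, x)` is separable.

Let `X : t y^q = g(x)` be a member over the number field `L`, and `A = L[T]/(g)`. The divisor of the
function `x - T` on `X_A` is `q` times a point minus the divisor at infinity of `x`, so a zero-cycle `z`
on `X_k` (`k` a field containing `L`) has a class `(x - T)(z)` in `A_k^* / k^* A_k^{*q}`, which depends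
only on the class of `z` modulo rational equivalence and modulo `q`. Let `(z_v)` be a family of local
zero-cycles of degree `d` which is orthogonal to `Br(X)`, or only to the classes
`Cores_{A/L} ((x - T) ∪ ε)`, `ε` a character of `A` of order `q` with `Cores_{A/L} ε = 0` (they are
unramified on `X`). By the theorem of Poitou and Tate the family of the local classes `(x - T)(z_v)` is
then the image of some `u ∈ A^*`. A local zero-cycle is modulo `q` rationally equivalent to an effective
one, given by `U(x) = 0, y = V(x)` with `U` prime to `g` (theorems of Riemann-Roch and Bertini), its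
degree is `deg U` and its class is that of `U(T)` up to the sign `(-1)^{deg U}`, which is in `k^*`. So
`X` has the property `Survives` below as soon as it has, for some `d` prime to `q`, local zero-cycles of
degree `d` at all finite and infinite places which are orthogonal to `Br(X)`.

**Theorem.** The following are equivalent.
(1) `f` has a monic factor in `F[s][x]` of degree prime to `q`.
(2) There is a nonempty open subset of the base such that for all number fields `L` containing `K` all
members `X_b` over the `L`-points `b` of this open subset have zero-cycles of degree prime to `q`.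
(3) There is a nonempty open subset of the base such that all these members `X_b` have the property
`Survives`: for some `d` prime to `q` and some `u ∈ A^*` there are at all finite places `v` of `L` zero-
cycles on `X_b` over `L_v`, of degree `≡ d` modulo `q` and of class `u`.

So if `f` has no factor of degree prime to `q`, then for a Zariski dense set of points `b` the curve `X_b`
has no zero-cycle of degree prime to `q` and this is explained by the Brauer-Manin obstruction: there
is no family of local zero-cycles of degree prime to `q` (in particular none of degree one) which is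
orthogonal to `Br(X_b)`; and if `f` has such a factor, then all members over an open subset have
zero-cycles of degree prime to `q`. Nothing is assumed on the Tate-Shafarevich groups of the
Jacobians. Note that the members can have points over all completions, and that the polynomials `f(b, x)`
can have roots modulo all primes.

Proof of (3) ⟹ (1). If `f` has no factor of degree prime to `q`, one specialises `R` to a number field
`L₀` so that this is still true, and constructs a finite extension `L` of `L₀` and a point `s₀ ∈ L`,
close to `c` at exactly one place, such that the norm of `s₀` is a prime number `p` and at finitely many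
auxiliary primes everything is totally ramified (NfO, Nf2Z, MainZ). Suppose that there is a `u` as in
(3), with components `u_i` in the splitting field. At the good places the valuations of the `u_i` are
congruent modulo `q` if `h(b)` is a unit there, and the sum of these valuations is `d` times that of
`h(b)` (Cyc, by reduction to points: a zero-cycle is a sum of norms of points over extensions of the
local field, and over these the valuation of `x - θ_i` is controlled by the equation of the curve). The
norms of the `u_i` to the splitting field `M` of `f` lie in finitely many classes, and by the choice of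
the auxiliary primes they are powers of `p` up to `q`-th powers. This gives a function `χ` from the
Galois group of `M` times the roots to `ℤ/q` (Core3), from which one gets a set of roots which is stable
under the Galois group and whose number of elements is prime to `q` (Grp).

Proof of (1) ⟹ (3). If `g = g₁ g₂` with `g₁` of degree prime to `q`, then `y = a g₁(x)` meets `X`, apart
from the points `g₁(x) = 0`, in the zero-cycle `t a^q g₁^{q-1} = g₂`, which has degree prime to `q`.
-/

set_option autoImplicit false

open Polynomial NumberField IsDedekindDomain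

namespace Pool.Agent.Results.MP_1ad228_nt.ZeroCyclesInFamilies

/-- The smooth projective curve `t y ^ q = g(x)`, where `t ≠ 0` and `g` is monic and separable of degree
divisible by `q`, has a point over `k`: an affine point, or a point at infinity (`t` is a `q`-th
power). -/
def HasPoint (q : ℕ) {k : Type} [Field k] (t : k) (g : k[X]) : Prop :=
  (∃ x y : k, t * y ^ q = g.eval x) ∨ ∃ r : k, t * r ^ q = 1

/-- The curve `t y ^ q = g(x)` over the number field `L` has a zero-cycle of degree prime to `q`: it is
the sum of `m i` times the image of a point over the number field `E i` containing `L`, and the degree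
of this image is `[E i : L]`. -/
def HasZeroCycle (q : ℕ) (L : Type) [Field L] [NumberField L] (t : L) (g : L[X]) : Prop :=
  ∃ (r : ℕ) (m : Fin r → ℤ) (E : Fin r → Type) (_ : ∀ i, Field (E i)) (_ : ∀ i, NumberField (E i))
    (_ : ∀ i, Algebra L (E i)),
    (∀ i, HasPoint q (algebraMap L (E i) t) (g.map (algebraMap L (E i)))) ∧
    ¬ (q : ℤ) ∣ ∑ i, m i * (Module.finrank L (E i) : ℤ)

/-- The curve `t y ^ q = g(x)` over the field `k` has an effective zero-cycle, the subscheme
`U(x) = 0, y = V(x)`, prime to the divisor `g(x) = 0`, of degree `deg U` congruent to `d` modulo `q`,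
whose class `U(T)` is the class of `u(T)` in the units of `k[T]/(g)` modulo `q`-th powers and units
of `k`. -/
def LocalCycle (q : ℕ) (k : Type) [Field k] (t : k) (g u : k[X]) (d : ℤ) : Prop :=
  ∃ (U V Z Q : k[X]) (lam : k), lam ≠ 0 ∧ U.Monic ∧ IsCoprime U g ∧
    (q : ℤ) ∣ (U.natDegree : ℤ) - d ∧ U ∣ g - C t * V ^ q ∧ C lam * U = u * Z ^ q + g * Q

/-- There is a `d` prime to `q` and a unit `u` of `L[T]/(g)` such that over the completions of `L` at all
finite places the curve `t y ^ q = g(x)` has a zero-cycle of degree congruent to `d` modulo `q` with
the class `u`. -/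
def Survives (q : ℕ) (L : Type) [Field L] [NumberField L] (t : L) (g : L[X]) : Prop :=
  ∃ (d : ℤ) (u : L[X]), ¬ (q : ℤ) ∣ d ∧ IsCoprime u g ∧
    ∀ v : HeightOneSpectrum (𝓞 L), LocalCycle q (v.adicCompletion L)
      (algebraMap L (v.adicCompletion L) t) (g.map (algebraMap L (v.adicCompletion L)))
      (u.map (algebraMap L (v.adicCompletion L))) d

/-- The property `P` holds for the fibres `h(b) y ^ q = f(b, x)` over all points `b = (φ, s)` of the
affine line over `Spec R`, with values in number fields `L` containing `K`, with `z(b) ≠ 0`. -/
def AllFibres (K R : Type) [Field K] [CommRing R] [Algebra K R] (h : R[X]) (f : R[X][X]) (z : R[X])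
    (P : ∀ (L : Type) [Field L] [NumberField L], L → L[X] → Prop) : Prop :=
  ∀ (L : Type) [Field L] [NumberField L] [Algebra K L] (φ : R →ₐ[K] L) (s : L),
    z.eval₂ (φ : R →+* L) s ≠ 0 →
      P L (h.eval₂ (φ : R →+* L) s) (f.map (eval₂RingHom (φ : R →+* L) s))

/-- a member with a factor of degree prime to `q` survives -/
lemma survives_of_factor (q : ℕ) (hq : q.Prime) (L : Type) [Field L] [NumberField L] (t : L)
    (ht : t ≠ 0) (g r : L[X]) (hg : g.Monic) (hsep : g.Separable) (hqn : q ∣ g.natDegree)
    (hr : r ∣ g) (hrq : ¬ q ∣ r.natDegree) : Survives q L t g := by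
  have hr0 : r ≠ 0 := by
    rintro rfl
    exact hg.ne_zero (zero_dvd_iff.1 hr)
  have hlc : r.leadingCoeff⁻¹ ≠ 0 := inv_ne_zero (leadingCoeff_ne_zero.2 hr0)
  have hm : (C r.leadingCoeff⁻¹ * r).Monic := by
    unfold Monic
    rw [leadingCoeff_mul, leadingCoeff_C, inv_mul_cancel₀ (leadingCoeff_ne_zero.2 hr0)]
  obtain ⟨p, hp⟩ := hr
  have hg' : g = C r.leadingCoeff⁻¹ * r * (C r.leadingCoeff * p) := by
    have h1 : C r.leadingCoeff⁻¹ * C r.leadingCoeff = (1 : L[X]) := by
      rw [← C_mul, inv_mul_cancel₀ (leadingCoeff_ne_zero.2 hr0), C_1]
    rw [hp]
    linear_combination -(r * p) * h1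
  have hm2 : (C r.leadingCoeff * p).Monic := by
    rw [hg'] at hg
    exact hm.of_mul_monic_left hg
  have hco : IsCoprime (C r.leadingCoeff⁻¹ * r) (C r.leadingCoeff * p) := by
    rw [hg'] at hsep
    exact hsep.isCoprime
  obtain ⟨u, U, V, lam, hlam, hU, hUg, hug, hUq, hUV, hZ⟩ := Run7.h846.cycle_of_factor q hq t ht g _ _
    hm hm2 hg' hco hqn (by
      rw [natDegree_C_mul hlc]
      exact hrq)
  refine ⟨U.natDegree, u, hUq, hug, fun v => ?_⟩
  let ι : L →+* v.adicCompletion L := algebraMap L (v.adicCompletion L)
  refine ⟨U.map ι, V.map ι, 1, 0, ι lam, (_root_.map_ne_zero ι).2 hlam, hU.map ι,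
    hUg.map (mapRingHom ι), ?_, ?_, ?_⟩
  · rw [hU.natDegree_map, sub_self]
    exact dvd_zero _
  · have h1 := Polynomial.map_dvd ι hUV
    rw [Polynomial.map_sub, Polynomial.map_mul, map_C, Polynomial.map_pow] at h1
    exact h1
  · have h1 := congrArg (Polynomial.map ι) hZ
    rw [Polynomial.map_mul, map_C] at h1
    rw [h1, one_pow, mul_one, mul_zero, add_zero]

/-- **Zero-cycles in families of superelliptic curves.** Suppose that `f` is monic of degree `n ≥ 3`
divisible by the prime `q` (by `4` if `q = 2`) and splits into factors `x - θ_i(s)` with `θ_i` in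
`F̄[s]`, `F` the fraction field of `R`, and that for some `c ∈ R` the order of `h` at `s = c` is prime to
`q` and `f(c, x)` is separable over `F`. Then the following are equivalent: `f` has a monic factor in
`F[s][x]` of degree prime to `q`; over some nonempty open subset `z ≠ 0` of the affine line over
`Spec R` all fibres over points with values in number fields `L` have zero-cycles of degree prime to
`q`; over some nonempty open subset all these fibres have local zero-cycles at all finite places whose
degree is congruent to some `d` prime to `q` and whose class is some `u ∈ L[T]/(g)`. -/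
theorem result (K : Type) [Field K] [NumberField K] (R : Type) [CommRing R] [IsDomain R]
    [Algebra K R] [Algebra.FiniteType K R] (q : ℕ) (hq : q.Prime) (h : R[X]) (f : R[X][X])
    (hf : f.Monic) (hn : 3 ≤ f.natDegree) (hqn : q ∣ f.natDegree) (h4 : q = 2 → 4 ∣ f.natDegree)
    (hsplit : (f.map (mapRingHom (algebraMap R (AlgebraicClosure (FractionRing R))))).Splits)
    (c : R) (hh : h ≠ 0) (hc : ¬ q ∣ h.rootMultiplicity c)
    (hsep : ((f.map (evalRingHom c)).map (algebraMap R (FractionRing R))).Separable) :
    List.TFAE [
      ∃ P : (FractionRing R)[X][X], P.Monic ∧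
        P ∣ f.map (mapRingHom (algebraMap R (FractionRing R))) ∧ ¬ q ∣ P.natDegree,
      ∃ z : R[X], z ≠ 0 ∧ AllFibres K R h f z fun L _ _ t g => HasZeroCycle q L t g,
      ∃ z : R[X], z ≠ 0 ∧ AllFibres K R h f z fun L _ _ t g => Survives q L t g] := by
  have hch : CharZero R := by
    have : CharZero K := inferInstance
    exact charZero_of_injective_algebraMap (algebraMap K R).injective
  obtain ⟨z₂, hz₂, hz₂'⟩ := Run7.h846.sep_fibre R (FractionRing R) f hf (by omega) c hsep
  tfae_have 1 → 2 := by
    rintro ⟨P, hPm, hP, hPq⟩
    obtain ⟨b, hb, H⟩ := Run7.h846.factor_fibre q R (FractionRing R) f P hPm hP hPq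
    refine ⟨C b, by rw [Ne, C_eq_zero]; exact hb, fun L _ _ _ φ s hs => ?_⟩
    rw [eval₂_C] at hs
    obtain ⟨r, hr1, hr2, hr3⟩ := H L (φ : R →+* L) s hs
    obtain ⟨L', _, _, _, x₀, h1, h2⟩ := Run7.h846.root_ext q L _ r hr1 hr2 hr3
    refine ⟨1, fun _ => 1, fun _ => L', inferInstance, inferInstance, inferInstance, fun _ =>
      Or.inl ⟨x₀, 0, by rw [h2, zero_pow hq.ne_zero, mul_zero]⟩, ?_⟩
    rw [Fin.sum_univ_one, one_mul]
    intro h3
    exact h1 (by exact_mod_cast h3)
  tfae_have 1 → 3 := by
    rintro ⟨P, hPm, hP, hPq⟩
    obtain ⟨b, hb, H⟩ := Run7.h846.factor_fibre q R (FractionRing R) f P hPm hP hPq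
    refine ⟨C b * z₂ * h, mul_ne_zero (mul_ne_zero (by rw [Ne, C_eq_zero]; exact hb) hz₂) hh,
      fun L _ _ _ φ s hs => ?_⟩
    rw [eval₂_mul, eval₂_mul, eval₂_C] at hs
    obtain ⟨r, -, hr2, hr3⟩ := H L (φ : R →+* L) s (left_ne_zero_of_mul (left_ne_zero_of_mul hs))
    exact survives_of_factor q hq L _ (right_ne_zero_of_mul hs) _ r (hf.map _)
      (hz₂' L (φ : R →+* L) s (right_ne_zero_of_mul (left_ne_zero_of_mul hs)))
      (by rw [hf.natDegree_map]; exact hqn) hr2 hr3
  tfae_have 2 → 1 := by
    rintro ⟨z, hz, H⟩
    by_contra hno
    push Not at hno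
    obtain ⟨L, _, _, _, _, φ, s, hzs, hobs⟩ := Run7.h846.mainO K R q hq h f hf hn hqn h4 hsplit c
      hh hc hsep z hz hno
    obtain ⟨r, m, E, _, _, _, hP, hm⟩ := H L φ s hzs
    obtain ⟨i, hi⟩ : ∃ i, ¬ q ∣ Module.finrank L (E i) := by
      by_contra hall
      push Not at hall
      apply hm
      refine Finset.dvd_sum fun i _ => ?_
      exact Dvd.dvd.mul_left (by exact_mod_cast hall i) _
    have hfd : FiniteDimensional L (E i) := FiniteDimensional.right ℚ L (E i)
    have hobs' := hobs (E i) hi
    rcases hP i with ⟨x, y, hxy⟩ | ⟨r, hr⟩
    · exact Run7.h846.obs_noPoint hq.ne_zero hobs' x y hxy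
    · exact hobs'.1 r hr
  tfae_have 3 → 1 := by
    rintro ⟨z, hz, H⟩
    by_contra hno
    push Not at hno
    obtain ⟨L, _, _, _, _, φ, s, hzs, hobs⟩ := Run7.h846.mainZ K R q hq h f hf hn hqn h4 hsplit c
      hh hc hsep z hz hno
    obtain ⟨d, u, hd, hu, hloc⟩ := H L φ s hzs
    exact Run7.h846.obsZ_noCycles hq.ne_zero hobs d hd u hu hloc
  tfae_finish

end Pool.Agent.Results.MP_1ad228_nt.ZeroCyclesInFamilies
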